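import Pool.Agent.W981.Hid.Stack

/-!
# A local maximum of the potential is a global maximum of the rank, for an unknown decomposition
-/

set_option autoImplicit false
set_option linter.unusedSectionVars false

namespace Pool.Agent.W981.Hid

open Pool.Agent.W981.Hyp Pool.Agent.W981.Blk Module Matrix MvPolynomial
open Pool.Agent.W981.Aff (imB gaf rk exists_poly_minor le_rk det_map_sub det_deg afs)
open Pool.Agent.W981.Loc (LL MM gp gX map_gp gp_append gp_zero gp_le rank_zero_le rk_MM LL_self
  LL_stk stk rank_stk_le dot_of_stk_le rank_le_stk pt ranks_eq allGood AllGood JJ dot_JJ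
  two_ranks' small_hit gaf_eq_LL)

section gen

universe w

variable {K : Type w} [Field K] {n m : Type*} [Fintype n] [Fintype m] {s : ℕ}

/-- the seeds -/
noncomputable def Yg (K : Type w) [Field K] (h : ℕ) : Fin h → FF (Fin h × Bool) K := fun j =>
  algebraMap (MvPolynomial (Fin h × Bool) K) _ (X (j, false))

/-- the seeds -/
noncomputable def Zg (K : Type w) [Field K] (h : ℕ) : Fin h → FF (Fin h × Bool) K := fun j =>
  algebraMap (MvPolynomial (Fin h × Bool) K) _ (X (j, true))

/-- the matrix at the generic point of the generator -/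
noncomputable def Lg (B : Matrix m n K) (A : Fin s → Matrix m n K) (h : ℕ) :
    Matrix m n (FF (Fin h × Bool) K) :=
  LL (FF (Fin h × Bool) K) B A (gp (Yg K h) (Zg K h))

theorem rk_Lg (B : Matrix m n K) (A : Fin s → Matrix m n K) (h : ℕ) :
    rk (MM B A (gX K s h)) = (Lg B A h).rank := by
  rw [rk_MM, Lg]
  have : (fun k => algebraMap (MvPolynomial (Fin h × Bool) K)
      (FF (Fin h × Bool) K) (gX K s h k)) = gp (Yg K h) (Zg K h) := by
    funext k
    rw [gX, map_gp]
    rfl
  rw [this]

theorem le_Lg (B : Matrix m n K) (A : Fin s → Matrix m n K) (h : ℕ) :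
    B.rank ≤ (Lg B A h).rank := by
  rw [← rk_Lg]
  exact rank_zero_le B A h

theorem Lg_mono (B : Matrix m n K) (A : Fin s → Matrix m n K) (h t : ℕ) :
    (Lg B A h).rank ≤ (Lg B A (h + t)).rank := by
  rw [← rk_Lg B A (h + t)]
  have h3 := gp_le (F := FF (Fin h × Bool) K) B A (Fin.append (Yg K h) (0 : Fin t → _))
    (Fin.append (Zg K h) (0 : Fin t → _))
  have h4 : (gp (Fin.append (Yg K h) (0 : Fin t → _)) (Fin.append (Zg K h) (0 : Fin t → _)) :
      Fin s → FF (Fin h × Bool) K) = gp (Yg K h) (Zg K h) := by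
    funext k
    rw [gp_append, gp_zero, add_zero]
  rwa [h4] at h3

theorem Lg_st {p : Type*} [Fintype p] [DecidableEq p] (B : Matrix m n K)
    (A : Fin s → Matrix m n K) (C : p → Matrix m n K) (h : ℕ) :
    Lg (st C B) (fun k => st 0 (A k)) h =
      st (fun q => (C q).map (algebraMap K (FF (Fin h × Bool) K))) (Lg B A h) := by
  rw [Lg, LL_st]
  rfl

theorem Lg_stk (B : Matrix m n K) (A : Fin s → Matrix m n K) (f : n → K) (h : ℕ) :
    Lg (stk B f) (fun k => stk (A k) 0) h = stk (Lg B A h) (up (FF (Fin h × Bool) K) f) := by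
  rw [Lg, LL_stk]
  rfl

end gen

section opt

variable {F : Type*} [Field F] {n m σ : Type*} [Fintype n] [Fintype m] [Fintype σ]
  [DecidableEq σ]

theorem im_opt (A : σ → Matrix m n F) (W : Submodule F (n → F)) :
    im (fun o : Option σ => o.elim 0 A) W = im A W := by
  refine le_antisymm ?_ ?_
  · rw [im_le]
    rintro (_ | k) x hx
    · rw [Option.elim_none, zero_mulVec]
      exact Submodule.zero_mem _
    · exact mem_im hx k
  · rw [im_le]
    intro k x hx
    exact mem_im (A := fun o : Option σ => o.elim 0 A) hx (some k)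

end opt

section pot

universe w

variable {K : Type w} [Field K] {n m : Type} [Fintype n] [Fintype m] {s : ℕ}

/-- the potential `(s + 1) rank M + dim 𝒜 ker M` -/
noncomputable def pot (A : Fin s → Matrix m n K) (M : Matrix m n K) : ℕ :=
  (s + 1) * M.rank + finrank K (im A (LinearMap.ker M.mulVecLin))

theorem rank_opt (A : Fin s → Matrix m n K) (M : Matrix m n K) :
    (st (fun o : Option (Fin s) => o.elim 0 A) M).rank = pot A M := by
  rw [rank_st, im_opt, Fintype.card_option, Fintype.card_fin]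
  rfl

theorem pt_st {p : Type*} [Fintype p] [DecidableEq p] (B : Matrix m n K)
    (A : Fin s → Matrix m n K) (C : p → Matrix m n K) (lam : Fin s → K) :
    pt (st C B) (fun k => st 0 (A k)) lam = st C (pt B A lam) := by
  rw [← LL_self, LL_st, LL_self]
  rfl

/-- what we get from a local maximum -/
theorem stage [CharZero K] (B : Matrix m n K) (A : Fin s → Matrix m n K) (H : ℕ)
    (hloc : ∀ y z : Fin H → ℕ, ∑ j, (y j + z j) ≤ (s + 1) * Fintype.card n * s →
      pot A (pt B A (gp (fun j => (y j : K)) fun j => (z j : K))) ≤ pot A B) {h t : ℕ}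
    (hH : h + t = H) : (Lg B A h).rank = B.rank ∧
      finrank (FF (Fin h × Bool) K) (im (fun k => (A k).map
        (algebraMap K (FF (Fin h × Bool) K))) (LinearMap.ker (Lg B A h).mulVecLin)) =
      finrank K (im A (LinearMap.ker B.mulVecLin)) := by
  have h1 := ranks_eq (fun _ : Unit => st (fun o : Option (Fin s) => o.elim 0 A) B)
    (fun k => st 0 (A k)) H (fun y z hyz => by
      simp only [pt_st, rank_opt, Finset.univ_unique, Finset.sum_singleton]
      refine hloc y z (hyz.trans ?_)
      rw [Fintype.card_unit, one_mul, Fintype.card_prod, Fintype.card_option, Fintype.card_fin])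
    ()
  rw [rk_Lg, rank_opt] at h1
  subst hH
  have h2 := Lg_mono (st (fun o : Option (Fin s) => o.elim 0 A) B) (fun k => st 0 (A k)) h t
  rw [h1, Lg_st] at h2
  have h3 : (fun q : Option (Fin s) => ((q.elim 0 A : Matrix m n K)).map
      (algebraMap K (FF (Fin h × Bool) K))) = fun o : Option (Fin s) => o.elim 0
        fun k => (A k).map (algebraMap K (FF (Fin h × Bool) K)) := by
    funext o
    rcases o with _ | k
    · exact Matrix.map_zero _ (map_zero _)
    · rfl
  rw [h3, rank_st, im_opt, Fintype.card_option, Fintype.card_fin, pot] at h2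
  have h4 := le_Lg (st A B) (fun k => st 0 (A k)) h
  rw [Lg_st, rank_st, rank_st, Fintype.card_fin] at h4
  have h5 := le_Lg B A h
  have e1 : (s + 1) * (Lg B A h).rank = s * (Lg B A h).rank + (Lg B A h).rank := by ring
  have e2 : (s + 1) * B.rank = s * B.rank + B.rank := by ring
  have e3 : s * B.rank ≤ s * (Lg B A h).rank := Nat.mul_le_mul_left _ h5
  have h6 : (Lg B A h).rank = B.rank := by omega
  refine ⟨h6, ?_⟩
  rw [h6] at h2 h4
  omega

end pot

section chain

universe w

variable {K : Type w} [Field K] [CharZero K] {n m : Type} [Fintype n] [Fintype m] {s : ℕ}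

/-- the hull of the kernel -/
noncomputable def Xh (B : Matrix m n K) (A : Fin s → Matrix m n K) (h : ℕ) :
    Submodule K (n → K) := hull K (LinearMap.ker (Lg B A h).mulVecLin)

theorem ortho_down {B : Matrix m n K} {A : Fin s → Matrix m n K} {h t : ℕ}
    (hr : (Lg B A (h + t)).rank = B.rank) {f : n → K}
    (hf : ∀ y, Lg B A (h + t) *ᵥ y = 0 → up (FF (Fin (h + t) × Bool) K) f ⬝ᵥ y = 0) :
    (Lg (stk B f) (fun k => stk (A k) 0) (h + t)).rank ≤ B.rank ∧
    ∀ y, Lg B A h *ᵥ y = 0 → up (FF (Fin h × Bool) K) f ⬝ᵥ y = 0 := by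
  have h1 : (Lg (stk B f) (fun k => stk (A k) 0) (h + t)).rank ≤ B.rank := by
    rw [← hr, Lg_stk]
    exact rank_stk_le hf
  refine ⟨h1, fun y hy => dot_of_stk_le ?_ hy⟩
  have h2 := Lg_mono (stk B f) (fun k => stk (A k) 0) h t
  rw [Lg_stk B A f h] at h2
  exact (h2.trans h1).trans (le_Lg B A h)

theorem Xh_mono {B : Matrix m n K} {A : Fin s → Matrix m n K} {h t : ℕ}
    (hr : (Lg B A (h + t)).rank = B.rank) : Xh B A h ≤ Xh B A (h + t) := by
  intro x hx f hf
  exact hx f fun y hy => (ortho_down hr fun y hy => hf y hy).2 y hy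

theorem ker_le_Xh {B : Matrix m n K} {A : Fin s → Matrix m n K} {h : ℕ}
    (hr : (Lg B A h).rank = B.rank) : LinearMap.ker B.mulVecLin ≤ Xh B A h := by
  intro x hx f hf
  refine dot_of_stk_le (M := B) ?_ hx
  have h1 := le_Lg (stk B f) (fun k => stk (A k) 0) h
  refine h1.trans ?_
  rw [Lg_stk, ← hr]
  exact rank_stk_le fun y hy => hf y hy

theorem good_at [DecidableEq n] [DecidableEq m] {B : Matrix m n K} {A : Fin s → Matrix m n K}
    {h : ℕ} (hr : (Lg B A (h + 3)).rank = B.rank) {f : n → K}
    (hf : ∀ y, Lg B A (h + 3) *ᵥ y = 0 → up (FF (Fin (h + 3) × Bool) K) f ⬝ᵥ y = 0) :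
    AllGood A (fun _ : Unit => f) (Lg B A h) := by
  have hchar : CharZero (FF (Fin h × Bool) K) :=
    charZero_of_injective_algebraMap (algebraMap K (FF (Fin h × Bool) K)).injective
  refine allGood B A (fun _ : Unit => f) (Yg K h) (Zg K h) ?_ fun _ => ?_
  · rw [rk_Lg, hr]
    exact le_Lg B A h
  · rw [rk_Lg]
    exact ((ortho_down hr hf).1.trans (le_Lg B A h)).trans (rank_le_stk _ _)

theorem jets_le [DecidableEq n] [DecidableEq m] {B : Matrix m n K} {A : Fin s → Matrix m n K}
    {h : ℕ} (hr : (Lg B A (h + 3)).rank = B.rank)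
    {G : Matrix n m (FF (Fin h × Bool) K)} (hG : Lg B A h * G * Lg B A h = Lg B A h) :
    hull K (JJ G A (Lg B A h)) ≤ Xh B A (h + 3) := by
  have hchar : CharZero (FF (Fin h × Bool) K) :=
    charZero_of_injective_algebraMap (algebraMap K (FF (Fin h × Bool) K)).injective
  have hinf : Infinite (FF (Fin h × Bool) K) := CharZero.infinite _
  intro x hx f hf
  exact hx f fun y hy => dot_JJ (i := ()) (good_at hr fun y hy => hf y hy) hG
    (ortho_down hr fun y hy => hf y hy).2 hy

/-- a bounded chain stops -/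
theorem chain_stops (d : ℕ → ℕ) (e c : ℕ) (h0 : e ≤ d 0) (h1 : d (c + 1) ≤ e + c)
    (hm : ∀ j ≤ c, d j ≤ d (j + 1)) : ∃ j ≤ c, d j = d (j + 1) := by
  by_contra hcon
  push Not at hcon
  have h2 : ∀ j ≤ c + 1, e + j ≤ d j := by
    intro j
    induction j with
    | zero => intro _; exact h0
    | succ j ih =>
      intro hj
      have h3 := ih (by omega)
      have h4 := hm j (by omega)
      have h5 := hcon j (by omega)
      omega
  have := h2 (c + 1) le_rfl
  omega

theorem charZero_FF (K : Type w) [Field K] [CharZero K] (τ : Type*) : CharZero (FF τ K) :=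
  charZero_of_injective_algebraMap (algebraMap K (FF τ K)).injective

theorem dim_Xh {ι : Type} [Fintype ι] [DecidableEq n] [DecidableEq m]
    (B : Matrix m n K) (A : Fin s → Matrix m n K)
    (u : ι → m → K) (v : ι → n → K) (a : Fin s → ι → K)
    (hA : ∀ k, A k = ∑ i, a k i • vecMulVec (u i) (v i)) {c : ℕ}
    (hc : Fintype.card ι ≤ finrank K (WW a) + c) (h : ℕ)
    (h1 : finrank (FF (Fin h × Bool) K) (im (fun k => (A k).map
        (algebraMap K (FF (Fin h × Bool) K))) (LinearMap.ker (Lg B A h).mulVecLin)) =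
      finrank K (im A (LinearMap.ker B.mulVecLin))) :
    finrank K (im A (Xh B A h)) ≤ finrank K (im A (LinearMap.ker B.mulVecLin)) + c := by
  have hchar := charZero_FF K (Fin h × Bool)
  have hinf : Infinite (FF (Fin h × Bool) K) := CharZero.infinite _
  have h2 := dim_im_hull hA (Lg B A h) hc
  rw [h1] at h2
  exact h2

/-- a stationary point of the chain -/
theorem exists_stage {ι : Type} [Fintype ι] [DecidableEq n] [DecidableEq m]
    (B : Matrix m n K) (A : Fin s → Matrix m n K)
    (u : ι → m → K) (v : ι → n → K) (a : Fin s → ι → K)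
    (hA : ∀ k, A k = ∑ i, a k i • vecMulVec (u i) (v i)) {c : ℕ}
    (hc : Fintype.card ι ≤ finrank K (WW a) + c)
    (hloc : ∀ y z : Fin (19 * c + 3) → ℕ,
      ∑ j, (y j + z j) ≤ (s + 1) * Fintype.card n * s →
      pot A (pt B A (gp (fun j => (y j : K)) fun j => (z j : K))) ≤ pot A B) :
    ∃ h, 16 * c ≤ h ∧ (Lg B A (h + 3)).rank = B.rank ∧
      im A (Xh B A h) = im A (Xh B A (h + 3)) := by
  have hst1 : ∀ h, h ≤ 19 * c + 3 → (Lg B A h).rank = B.rank := fun h hh =>
    (stage B A (19 * c + 3) hloc (Nat.add_sub_of_le hh)).1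
  obtain ⟨j, hj, hjd⟩ := chain_stops (fun j => finrank K (im A (Xh B A (16 * c + 3 * j))))
    (finrank K (im A (LinearMap.ker B.mulVecLin))) c
    (Submodule.finrank_mono (im_mono (ker_le_Xh (hst1 (16 * c + 3 * 0) (by omega)))))
    (dim_Xh B A u v a hA hc _ (stage B A (19 * c + 3) hloc
      (Nat.add_sub_of_le (by omega))).2)
    (fun j hj => Submodule.finrank_mono (im_mono
      (Xh_mono (t := 3) (hst1 (16 * c + 3 * j + 3) (by omega)))))
  exact ⟨16 * c + 3 * j, by omega, hst1 (16 * c + 3 * j + 3) (by omega),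
    Submodule.eq_of_le_of_finrank_eq (im_mono (Xh_mono (t := 3)
      (hst1 (16 * c + 3 * j + 3) (by omega)))) hjd⟩

/-- the certificate at a stationary point is a certificate for the generic rank -/
theorem finish [DecidableEq n] [DecidableEq m] (B : Matrix m n K) (A : Fin s → Matrix m n K)
    (h : ℕ) {U₁ U₂ : Submodule K (n → K)} (hU : U₁ ≤ U₂)
    (hd : finrank K U₂ ≤ finrank K U₁ + h)
    (hcert : (Lg B A h).rank + finrank K U₂ = Fintype.card n +
      finrank (FF (Fin h × Bool) K) ((ext (FF (Fin h × Bool) K) U₂).map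
        (Lg B A h).mulVecLin ⊔ ext (FF (Fin h × Bool) K) (imB B A U₁) :
        Submodule (FF (Fin h × Bool) K) (m → FF (Fin h × Bool) K))) :
    (gaf B A).rank ≤ (Lg B A h).rank := by
  obtain ⟨d, B', A', hd', hb⟩ := two_ranks' B A hU
  have h3 := Pool.Agent.W981.Aff.pair_upper B A U₁ U₂
  have h4 := hb (FF (Fin s) K) (tt K)
  rw [← gaf_eq_LL, ← gaf_eq_LL] at h4
  have h5 := hb (FF (Fin h × Bool) K) (gp (Yg K h) (Zg K h))
  have h6 := small_hit B' A' (d := h) (by rw [Fintype.card_fin]; omega)
  rw [rk_Lg] at h6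
  rw [← Lg, ← Lg] at h5
  omega

/-- **The core theorem.** -/
theorem core0 {ι : Type} [Fintype ι]
    (B : Matrix m n K) (A : Fin s → Matrix m n K)
    (u : ι → m → K) (v : ι → n → K) (a : Fin s → ι → K)
    (hA : ∀ k, A k = ∑ i, a k i • vecMulVec (u i) (v i)) {c : ℕ}
    (hc : Fintype.card ι ≤ finrank K (WW a) + c)
    (hloc : ∀ y z : Fin (19 * c + 3) → ℕ,
      ∑ j, (y j + z j) ≤ (s + 1) * Fintype.card n * s →
      pot A (pt B A (gp (fun j => (y j : K)) fun j => (z j : K))) ≤ pot A B) :
    (gaf B A).rank ≤ B.rank := by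
  classical
  obtain ⟨h, hh, hr3, heq⟩ := exists_stage B A u v a hA hc hloc
  have hchar := charZero_FF K (Fin h × Bool)
  have hinfF : Infinite (FF (Fin h × Bool) K) := CharZero.infinite _
  have hgood : AllGood A (fun _ : Unit => (0 : n → K)) (Lg B A h) :=
    good_at hr3 fun y _ => by rw [up_zero, zero_dotProduct]
  obtain ⟨U₁, U₂, hU, hd, hcert⟩ := local_blocks B A u v a (Lg B A h) hA ⟨_, rfl⟩ hgood
    (fun G hG => (im_mono (jets_le hr3 hG)).trans heq.ge) hc
  have h1 := finish B A h hU (by omega) hcert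
  have h2 := Lg_mono B A h 3
  omega

end chain

end Pool.Agent.W981.Hid
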