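import Pool.Agent.W981.Loc.Core

/-!
# The dimension counts at a point, for an unknown decomposition
-/

set_option autoImplicit false
set_option linter.unusedSectionVars false

namespace Pool.Agent.W981.Hid

open Pool.Agent.W981.Hyp Pool.Agent.W981.Blk Module Matrix
open Pool.Agent.W981.Aff (Alg imB)
open Pool.Agent.W981.Loc (kap ext_le_range om zt nu_apply phi et q3 s3 sf sf_apply map_L_le B_mem)

section main

variable {σ ι K F : Type*} [Field K] [Field F] [Algebra K F] [DecidableEq σ] [Fintype σ]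
  [Fintype ι]
  {n m : Type*} [Fintype n] [Fintype m]

/-- the span of the `u_i` with `v_i · z ≠ 0` -/
def EI (u : ι → m → K) (v : ι → n → K) (z : n → F) : Submodule K (m → K) :=
  Submodule.span K {y | ∃ i, u i = y ∧ zt v z i ≠ 0}

/-- The data of the argument at a point. -/
structure DatI (B : Matrix m n K) (A : σ → Matrix m n K) (u : ι → m → K) (v : ι → n → K)
    (a : σ → ι → K) (L : Matrix m n F) (X : Submodule K (n → K)) (w : m → F)
    (wJ : (σ → F) →ₗ[F] (m → F)) (z : n → F) (zJ : (σ → F) →ₗ[F] (n → F)) : Prop where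
  hA : ∀ k, A k = ∑ i, a k i • vecMulVec (u i) (v i)
  hL : ∃ P : σ → F, L = B.map (algebraMap K F) + ∑ k, P k • (A k).map (algebraMap K F)
  ker_le : LinearMap.ker L.mulVecLin ≤ ext F X
  hz0 : L *ᵥ z = 0
  hzv : ∀ i, zt v z i = 0 → ∀ x, L *ᵥ x = 0 → zt v x i = 0
  hwu : ∀ i, w ⬝ᵥ up F (u i) = 0 → up F (u i) ∈ (ext F X).map L.mulVecLin
  hzJ : ∀ b, zJ b ∈ ext F X
  L_zJ : ∀ b, L *ᵥ zJ b = -BB u v (kap F a b) z
  i0 : ∀ x, L *ᵥ x = 0 → ∀ b, w ⬝ᵥ BB u v (kap F a b) x = 0
  i1 : ∀ b c, w ⬝ᵥ BB u v (kap F a c) (zJ b) = wJ c ⬝ᵥ BB u v (kap F a b) z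
  i2 : ∀ b c, w ⬝ᵥ BB u v (kap F a c) (zJ b) + w ⬝ᵥ BB u v (kap F a b) (zJ c) = 0
  i3 : ∀ b c d, s3 u v a wJ zJ b c d = 0
  hE : (ext F X).map L.mulVecLin ≤ ext F (EI u v z)

/-- restriction to a subset of the indices -/
def res (F : Type*) [Field F] (p : ι → Prop) : (ι → F) →ₗ[F] ({i // p i} → F) :=
  LinearMap.funLeft F F Subtype.val

theorem res_apply (p : ι → Prop) (y : ι → F) (i : {i // p i}) : res F p y i = y i := rfl

theorem sum_res (p : ι → Prop) [Fintype {i // p i}] (f : ι → F) (h : ∀ i, ¬ p i → f i = 0) :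
    ∑ i : {i // p i}, f i = ∑ i, f i := by
  classical
  have h1 := Fintype.sum_subtype_add_sum_subtype p f
  have h2 : ∑ i : {i // ¬ p i}, f i = 0 := Finset.sum_eq_zero fun i _ => h i i.2
  rw [h2, add_zero] at h1
  rw [← h1]
  exact Finset.sum_congr (by ext; simp) fun _ _ => rfl

/-- the vectors supported on `p` -/
def supp (F : Type*) [Field F] (p : ι → Prop) : Submodule F (ι → F) :=
  LinearMap.ker (res F fun i => ¬ p i)

theorem mem_supp {p : ι → Prop} {y : ι → F} : y ∈ supp F p ↔ ∀ i, ¬ p i → y i = 0 := by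
  rw [supp, LinearMap.mem_ker]
  constructor
  · intro h i hi
    exact congrFun h ⟨i, hi⟩
  · intro h
    funext i
    exact h i i.2

theorem card_le_supp (p : ι → Prop) [Fintype {i // p i}] :
    Fintype.card {i // p i} ≤ finrank F (supp F p) := by
  classical
  have h1 := LinearMap.finrank_range_add_finrank_ker (res F fun i => ¬ p i)
  have h2 := Submodule.finrank_le (LinearMap.range (res F fun i : ι => ¬ p i))
  rw [finrank_fintype_fun_eq_card] at h1 h2
  have h3 := Fintype.card_subtype_compl p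
  have h4 := Fintype.card_subtype_le p
  change _ + finrank F (supp F p) = _ at h1
  omega

theorem res_inj {p : ι → Prop} {S : Submodule F (ι → F)} (hS : S ≤ supp F p) :
    finrank F (S.map (res F p)) = finrank F S := by
  classical
  have h1 := finrank_map_add (res F p) S
  have h2 : LinearMap.ker (res F p) ⊓ S = ⊥ := by
    rw [eq_bot_iff]
    rintro y ⟨hy1, hy2⟩
    rw [Submodule.mem_bot]
    funext i
    by_cases hi : p i
    · exact congrFun hy1 ⟨i, hi⟩
    · exact mem_supp.1 (hS hy2) i hi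
  rw [h2, finrank_bot] at h1
  omega

section dims

variable {B : Matrix m n K} {A : σ → Matrix m n K} {u : ι → m → K} {v : ι → n → K}
    {a : σ → ι → K} {L : Matrix m n F} {X : Submodule K (n → K)} {w : m → F}
    {wJ : (σ → F) →ₗ[F] (m → F)} {z : n → F} {zJ : (σ → F) →ₗ[F] (n → F)}

/-- the parameters of the matrices which are combinations of the `u_i v_iᵀ` with `v_i · z ≠ 0` -/
noncomputable def PI (a : σ → ι → K) (v : ι → n → K) (z : n → F) : Submodule F (σ → F) :=
  (supp F fun i => zt v z i ≠ 0).comap (kap F a)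

theorem mem_PI {b : σ → F} (hb : b ∈ PI a v z) {i : ι} (hi : zt v z i = 0) : kap F a b i = 0 :=
  mem_supp.1 hb i (not_not_intro hi)

theorem phi_out {c : σ → F} (hc : phi u v w wJ z zJ c = 0) {i : ι} (hi : zt v z i = 0) :
    om u w i * zt v (zJ c) i = 0 := by
  have h1 : zt v z i * om u (wJ c) i + om u w i * zt v (zJ c) i = 0 := congrFun hc i
  rwa [hi, zero_mul, zero_add] at h1

theorem et_mul_sf {b : σ → F} (hb : phi u v w wJ z zJ b = 0) :
    et u v w z * sf u v w z zJ b = nu u v w (zJ b) := by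
  funext i
  rw [Pi.mul_apply, nu_apply, sf_apply]
  change om u w i * zt v z i * _ = _
  by_cases h1 : om u w i = 0
  · rw [h1]; ring
  by_cases h2 : zt v z i = 0
  · rw [phi_out hb h2, h2]; ring
  have h3 : om u w i * zt v z i ≠ 0 := mul_ne_zero h1 h2
  field_simp

theorem triple_term {b c : σ → F} (hc : phi u v w wJ z zJ c = 0) {i : ι} (h2 : zt v z i ≠ 0) :
    om u (wJ c) i * zt v (zJ b) i =
      -(et u v w z i * (sf u v w z zJ b i * sf u v w z zJ c i)) := by
  rw [sf_apply, sf_apply]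
  change _ = -(om u w i * zt v z i * _)
  have hc' : zt v z i * om u (wJ c) i + om u w i * zt v (zJ c) i = 0 := congrFun hc i
  by_cases h1 : om u w i = 0
  · rw [h1, zero_mul, add_zero] at hc'
    rw [(mul_eq_zero.1 hc').resolve_left h2, h1]
    ring
  have h3 : om u (wJ c) i = -(om u w i * zt v (zJ c) i) / zt v z i := by
    field_simp
    linear_combination hc'
  rw [h3]
  field_simp

theorem q3_eq {b c d : σ → F} (hb : b ∈ PI a v z) (hc : phi u v w wJ z zJ c = 0) :
    q3 u v a wJ zJ c b d =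
      -(kap F a b ⬝ᵥ (et u v w z * (sf u v w z zJ d * sf u v w z zJ c))) := by
  rw [q3, dot_BB, dotProduct, dotProduct, ← Finset.sum_neg_distrib]
  refine Finset.sum_congr rfl fun i _ => ?_
  by_cases hi : zt v z i = 0
  · rw [mem_PI hb hi, zero_mul, zero_mul, neg_zero]
  · rw [nu_apply, triple_term hc hi, Pi.mul_apply, Pi.mul_apply]
    ring

/-- the good parameters -/
noncomputable def PP (a : σ → ι → K) (u : ι → m → K) (v : ι → n → K) (w : m → F)
    (wJ : (σ → F) →ₗ[F] (m → F)) (z : n → F) (zJ : (σ → F) →ₗ[F] (n → F)) :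
    Submodule F (σ → F) := PI a v z ⊓ LinearMap.ker (phi u v w wJ z zJ)

theorem dot_res [Fintype {i // zt v z i ≠ 0}] (x y : ι → F) :
    res F (fun i => zt v z i ≠ 0) x ⬝ᵥ (res F (fun i => zt v z i ≠ 0) (et u v w z) *
      res F (fun i => zt v z i ≠ 0) y) = x ⬝ᵥ (et u v w z * y) := by
  rw [dotProduct, dotProduct]
  refine sum_res (fun i => zt v z i ≠ 0) (fun i => x i * (et u v w z * y) i) fun i hi => ?_
  have h1 : zt v z i = 0 := not_not.1 hi
  have h2 : et u v w z i = 0 := by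
    change om u w i * zt v z i = 0
    rw [h1, mul_zero]
  rw [Pi.mul_apply, h2, zero_mul, mul_zero]

theorem alg [Fintype {i // zt v z i ≠ 0}] (h : DatI B A u v a L X w wJ z zJ) (h2 : (2 : F) ≠ 0) :
    Alg (res F (fun i => zt v z i ≠ 0) (et u v w z))
      (res F (fun i => zt v z i ≠ 0) ∘ₗ kap F a ∘ₗ (PP a u v w wJ z zJ).subtype)
      (res F (fun i => zt v z i ≠ 0) ∘ₗ sf u v w z zJ ∘ₗ (PP a u v w wJ z zJ).subtype) where
  hη i hi b := by
    change sf u v w z zJ b i = 0
    have hi' : om u w i * zt v z i = 0 := hi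
    rw [sf_apply, hi', _root_.inv_zero, mul_zero, zero_mul]
  h1 b c := by
    have hb : phi u v w wJ z zJ b = 0 := b.2.2
    have hc : phi u v w wJ z zJ c = 0 := c.2.2
    change res F _ (kap F a c) ⬝ᵥ (res F _ (et u v w z) * res F _ (sf u v w z zJ b)) +
      res F _ (kap F a b) ⬝ᵥ (res F _ (et u v w z) * res F _ (sf u v w z zJ c)) = 0
    rw [dot_res, dot_res, et_mul_sf hb, et_mul_sf hc, ← dot_BB, ← dot_BB]
    exact h.i2 b c
  h3 x y t := by
    change res F _ (kap F a x) ⬝ᵥ (res F _ (et u v w z) *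
        (res F _ (sf u v w z zJ y) * res F _ (sf u v w z zJ t))) +
      res F _ (kap F a y) ⬝ᵥ (res F _ (et u v w z) *
        (res F _ (sf u v w z zJ x) * res F _ (sf u v w z zJ t))) +
      res F _ (kap F a t) ⬝ᵥ (res F _ (et u v w z) *
        (res F _ (sf u v w z zJ x) * res F _ (sf u v w z zJ y))) = 0
    have hr : ∀ p q : ι → F, res F (fun i => zt v z i ≠ 0) p *
        res F (fun i => zt v z i ≠ 0) q = res F (fun i => zt v z i ≠ 0) (p * q) :=
      fun _ _ => rfl
    rw [hr (sf u v w z zJ y) (sf u v w z zJ t), hr (sf u v w z zJ x) (sf u v w z zJ t),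
      hr (sf u v w z zJ x) (sf u v w z zJ y), dot_res, dot_res, dot_res]
    have e := h.i3 x y t
    have hx : phi u v w wJ z zJ x = 0 := x.2.2
    have hy : phi u v w wJ z zJ y = 0 := y.2.2
    have ht : phi u v w wJ z zJ t = 0 := t.2.2
    have hx' : (x : σ → F) ∈ PI a v z := x.2.1
    have hy' : (y : σ → F) ∈ PI a v z := y.2.1
    have ht' : (t : σ → F) ∈ PI a v z := t.2.1
    rw [s3, q3_eq hy' ht, q3_eq hx' ht, q3_eq ht' hy, q3_eq hx' hy, q3_eq ht' hx, q3_eq hy' hx,
      mul_comm (sf u v w z zJ ↑t) (sf u v w z zJ ↑x),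
      mul_comm (sf u v w z zJ ↑t) (sf u v w z zJ ↑y),
      mul_comm (sf u v w z zJ ↑y) (sf u v w z zJ ↑x)] at e
    have e' : 2 * (kap F a x ⬝ᵥ (et u v w z * (sf u v w z zJ y * sf u v w z zJ t)) +
      kap F a y ⬝ᵥ (et u v w z * (sf u v w z zJ x * sf u v w z zJ t)) +
      kap F a t ⬝ᵥ (et u v w z * (sf u v w z zJ x * sf u v w z zJ y))) = 0 := by
      linear_combination -e
    exact (mul_eq_zero.1 e').resolve_left h2

theorem finrank_phi (h : DatI B A u v a L X w wJ z zJ) {c : ℕ}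
    (hc : Fintype.card ι ≤ finrank K (WW a) + c) :
    finrank F (σ → F) ≤ finrank F (LinearMap.ker (phi u v w wJ z zJ)) + c := by
  classical
  have h1 := LinearMap.finrank_range_add_finrank_ker (phi u v w wJ z zJ)
  have h2 : LinearMap.range (phi u v w wJ z zJ) ≤ perp (LinearMap.range (kap F a)) := by
    rintro _ ⟨c, rfl⟩ _ ⟨b, rfl⟩
    have e1 := h.i1 b c
    have e2 := h.i2 b c
    rw [dot_BB, dot_BB] at e1 e2
    have e3 : phi u v w wJ z zJ c ⬝ᵥ kap F a b = kap F a b ⬝ᵥ nu u v (wJ c) z +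
        kap F a b ⬝ᵥ nu u v w (zJ c) := by
      rw [dotProduct_comm, ← dotProduct_add]
      congr 1
      funext i
      change zt v z i * om u (wJ c) i + om u w i * zt v (zJ c) i =
        om u (wJ c) i * zt v z i + om u w i * zt v (zJ c) i
      ring
    rw [e3, ← e1, e2]
  have h3 := Submodule.finrank_mono h2
  have h4 := finrank_perp (LinearMap.range (kap F a))
  have h5 := Submodule.finrank_mono (ext_le_range (F := F) a)
  rw [finrank_ext] at h5
  omega

theorem kap_PP_le : (PP a u v w wJ z zJ).map (kap F a) ≤ supp F fun i => zt v z i ≠ 0 := by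
  rintro _ ⟨b, hb, rfl⟩
  exact hb.1

theorem finrank_PP [Fintype {i // zt v z i ≠ 0}] (h : DatI B A u v a L X w wJ z zJ) {c : ℕ}
    (hc : Fintype.card ι ≤ finrank K (WW a) + c) : Fintype.card {i // zt v z i ≠ 0} ≤
      finrank F (((PP a u v w wJ z zJ).map (kap F a)).map (res F fun i => zt v z i ≠ 0)) +
        2 * c := by
  classical
  rw [res_inj kap_PP_le]
  have e1 := finrank_phi h hc
  have e2 := Submodule.finrank_mono (ext_le_range (F := F) a)
  rw [finrank_ext] at e2
  have e3 := card_le_supp (F := F) fun i => zt v z i ≠ 0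
  have e4 := Submodule.finrank_sup_add_finrank_inf_eq (LinearMap.range (kap F a))
    (supp F fun i => zt v z i ≠ 0)
  have e5 := Submodule.finrank_le (LinearMap.range (kap F a) ⊔ supp F fun i => zt v z i ≠ 0)
  rw [finrank_fintype_fun_eq_card] at e5
  have e6 : (PI a v z).map (kap F a) =
      LinearMap.range (kap F a) ⊓ supp F fun i => zt v z i ≠ 0 := by
    rw [PI, Submodule.map_comap_eq]
  rw [← e6] at e4
  have e7 := Submodule.finrank_sup_add_finrank_inf_eq (PI a v z)
    (LinearMap.ker (phi u v w wJ z zJ))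
  change _ + finrank F (PP a u v w wJ z zJ) = _ at e7
  have e8 := Submodule.finrank_le (PI a v z ⊔ LinearMap.ker (phi u v w wJ z zJ))
  have e9 := finrank_map_codim (kap F a) (S₁ := PP a u v w wJ z zJ) (S := PI a v z) inf_le_left
  omega

theorem im_U1 (h : DatI B A u v a L X w wJ z zJ) : im A (U1 X u v w) ≤ E1 X u v w := by
  rw [im_le]
  rintro k x ⟨hx, hx'⟩
  rw [sum_mulVec_eq (h.hA k)]
  refine Submodule.sum_mem _ fun i _ => ?_
  by_cases hi : w ⬝ᵥ up F (u i) = 0
  · by_cases hv : v i ⬝ᵥ x = 0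
    · rw [hv, mul_zero, zero_smul]
      exact Submodule.zero_mem _
    · exact Submodule.smul_mem _ _ (Submodule.subset_span ⟨i, rfl, hi, x, hx, hv⟩)
  · rw [hx' i hi, mul_zero, zero_smul]
    exact Submodule.zero_mem _

theorem ext_E1_le (h : DatI B A u v a L X w wJ z zJ) : ext F (E1 X u v w) ≤
    (ext F X).map L.mulVecLin := by
  rw [ext_le_iff]
  intro y hy
  rw [E1] at hy
  induction hy using Submodule.span_induction with
  | mem x hx =>
    obtain ⟨i, rfl, hi, -⟩ := hx
    exact h.hwu i hi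
  | zero => rw [up_zero]; exact Submodule.zero_mem _
  | add x y _ _ hx hy => rw [up_add]; exact Submodule.add_mem _ hx hy
  | smul c x _ hx => rw [up_smul]; exact Submodule.smul_mem _ _ hx

/-- the map `y ↦ ∑ i, y i (v_i · z) u_i` for `i` with `v_i · z ≠ 0` -/
noncomputable def BI (u : ι → m → K) (v : ι → n → K) (z : n → F)
    [Fintype {i // zt v z i ≠ 0}] : ({i // zt v z i ≠ 0} → F) →ₗ[F] (m → F) :=
  BBl (fun i => u i.1) (fun i => v i.1) z

theorem ext_EI_le [Fintype {i // zt v z i ≠ 0}] : ext F (EI u v z) ≤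
    (⊤ : Submodule F ({i // zt v z i ≠ 0} → F)).map (BI u v z) := by
  classical
  rw [ext_le_iff]
  intro y hy
  rw [EI] at hy
  induction hy using Submodule.span_induction with
  | mem x hx =>
    obtain ⟨i, rfl, h1⟩ := hx
    have h1' : up F (v i) ⬝ᵥ z ≠ 0 := h1
    refine ⟨Pi.single ⟨i, h1⟩ (up F (v i) ⬝ᵥ z)⁻¹, Submodule.mem_top, ?_⟩
    change BB _ _ _ z = _
    rw [BB, Finset.sum_eq_single ⟨i, h1⟩]
    · rw [Pi.single_eq_same, inv_mul_cancel₀ h1', one_smul]
    · intro j _ hj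
      rw [Pi.single_eq_of_ne hj, zero_mul, zero_smul]
    · intro hi
      exact absurd (Finset.mem_univ _) hi
  | zero => rw [up_zero]; exact Submodule.zero_mem _
  | add x y _ _ hx hy => rw [up_add]; exact Submodule.add_mem _ hx hy
  | smul c x _ hx => rw [up_smul]; exact Submodule.smul_mem _ _ hx

theorem BI_res [Fintype {i // zt v z i ≠ 0}] (y : ι → F) :
    BI u v z (res F (fun i => zt v z i ≠ 0) y) = BB u v y z := by
  change BB _ _ _ z = _
  rw [BB, BB]
  have h1 := fun p : m => sum_res (fun i => zt v z i ≠ 0)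
    (fun i => (y i * (up F (v i) ⬝ᵥ z)) * up F (u i) p) (fun i hi => by
      have h1 : up F (v i) ⬝ᵥ z = 0 := not_not.1 hi
      rw [h1, mul_zero, zero_mul])
  funext p
  rw [Finset.sum_apply, Finset.sum_apply]
  exact h1 p

/-- the rank of the pairing -/
theorem dim_nu (h : DatI B A u v a L X w wJ z zJ) (h2 : (2 : F) ≠ 0) {c : ℕ}
    (hc : Fintype.card ι ≤ finrank K (WW a) + c) :
    finrank F ((ext F X).map (nu u v w)) ≤ 16 * c := by
  classical
  obtain ⟨κ, hκ⟩ : ∃ κ : ↥(PP a u v w wJ z zJ) →ₗ[F] ({i // zt v z i ≠ 0} → F), κ =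
    res F (fun i => zt v z i ≠ 0) ∘ₗ kap F a ∘ₗ (PP a u v w wJ z zJ).subtype := ⟨_, rfl⟩
  have hr : finrank F (LinearMap.range κ) = finrank F
      (((PP a u v w wJ z zJ).map (kap F a)).map (res F fun i => zt v z i ≠ 0)) := by
    rw [hκ, LinearMap.range_comp, LinearMap.range_comp, Submodule.range_subtype]
  have hP := finrank_PP h hc
  obtain ⟨V, W, -, f1, f2, f3⟩ := (alg h h2).main h2 (k := 2 * c) (by
    rw [← hκ, hr]
    exact hP)
  rw [← hκ] at f3
  -- the dimensions of the images of `V` and `W`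
  have b1 := finrank_map_codim κ (S₁ := V) (S := ⊤) le_top
  have b2 := finrank_map_codim κ (S₁ := W) (S := ⊤) le_top
  rw [Submodule.map_top, finrank_top] at b1 b2
  set T := (V.map κ).map (BI u v z) with hT
  have b3 := finrank_map_codim (BI u v z) (S₁ := V.map κ) (S := ⊤) le_top
  rw [← hT, finrank_top, finrank_fintype_fun_eq_card] at b3
  set XV := T.comap L.mulVecLin ⊓ ext F X with hXV
  have c1 := finrank_map_sup L.mulVecLin (ext F X) T
  rw [← hXV] at c1
  have c2 : (ext F X).map L.mulVecLin ⊔ T ≤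
      (⊤ : Submodule F ({i // zt v z i ≠ 0} → F)).map (BI u v z) :=
    sup_le (h.hE.trans ext_EI_le) (Submodule.map_mono le_top)
  have c3 := Submodule.finrank_mono c2
  -- the vectors in `XV`
  have g : ∀ x ∈ XV, ∃ b ∈ V, L *ᵥ (x + zJ (b : σ → F)) = 0 := by
    intro x hx
    obtain ⟨_, ⟨b, hb, rfl⟩, hbx⟩ := hx.1
    refine ⟨b, hb, ?_⟩
    have hbx' : BI u v z (res F (fun i => zt v z i ≠ 0) (kap F a b)) = L *ᵥ x := by
      rw [hκ] at hbx
      exact hbx
    rw [BI_res] at hbx'
    rw [mulVec_add, h.L_zJ, hbx', add_neg_cancel]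
  have g2 : XV.map (nu u v w) ≤ supp F fun i => zt v z i ≠ 0 := by
    rintro _ ⟨x, hx, rfl⟩
    rw [mem_supp]
    intro i hi
    have hi' : zt v z i = 0 := not_not.1 hi
    obtain ⟨b, hb, hb2⟩ := g x hx
    have h3 : zt v (x + zJ (b : σ → F)) i = 0 := h.hzv i hi' _ hb2
    have h4 : om u w i * zt v (zJ (b : σ → F)) i = 0 := phi_out b.2.2 hi'
    have h5 : zt v (x + zJ (b : σ → F)) i = zt v x i + zt v (zJ (b : σ → F)) i := by
      simp only [zt, dotProduct_add]
    rw [h5] at h3
    rw [nu_apply, eq_neg_of_add_eq_zero_left h3, mul_neg, h4, neg_zero]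
  have d1 : finrank F (W.map κ) + finrank F ((XV.map (nu u v w)).map
      (res F fun i => zt v z i ≠ 0)) ≤ Fintype.card {i // zt v z i ≠ 0} := by
    refine finrank_perp_le _ _ ?_
    rintro _ ⟨d, hd, rfl⟩ _ ⟨_, ⟨x, hx, rfl⟩, rfl⟩
    obtain ⟨b, hb, hb2⟩ := g x hx
    have e0 : κ d ⬝ᵥ res F (fun i => zt v z i ≠ 0) (nu u v w x) =
        kap F a d ⬝ᵥ nu u v w x := by
      rw [hκ, dotProduct, dotProduct]
      refine sum_res (fun i => zt v z i ≠ 0) (fun i => kap F a d i * nu u v w x i)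
        fun i hi => ?_
      rw [mem_PI d.2.1 (not_not.1 hi), zero_mul]
    rw [e0, ← dot_BB]
    have e1 := h.i0 _ hb2 d
    have e2 := f3 b hb d hd
    have e3 : κ d ⬝ᵥ (res F (fun i => zt v z i ≠ 0) (et u v w z) *
        res F (fun i => zt v z i ≠ 0) (sf u v w z zJ b)) =
        kap F a d ⬝ᵥ (et u v w z * sf u v w z zJ b) := by
      rw [hκ]
      exact dot_res _ _
    have e4 : κ d ⬝ᵥ (res F (fun i => zt v z i ≠ 0) (et u v w z) *
        res F (fun i => zt v z i ≠ 0) (sf u v w z zJ b)) = 0 := e2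
    rw [e3, et_mul_sf b.2.2, ← dot_BB] at e4
    rw [BB_add_right, dotProduct_add, e4, add_zero] at e1
    exact e1
  rw [res_inj g2] at d1
  have d2 := finrank_map_codim (nu u v w) (S₁ := XV) (S := ext F X) inf_le_right
  rw [finrank_ext] at c1 d2
  omega

theorem dim_U (h : DatI B A u v a L X w wJ z zJ) (h2 : (2 : F) ≠ 0) {c : ℕ}
    (hc : Fintype.card ι ≤ finrank K (WW a) + c) :
    finrank K X ≤ finrank K (U1 X u v w) + 16 * c := by
  have e1 := dim_nu h h2 hc
  have e2 := finrank_map_add (nu u v w) (ext F X)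
  have e3 := Submodule.finrank_mono (ker_nu_le X u v w)
  rw [finrank_ext] at e2 e3
  omega

theorem ext_imB_le (h : DatI B A u v a L X w wJ z zJ) : ext F (imB B A (U1 X u v w)) ≤
    (ext F X).map L.mulVecLin := by
  rw [imB, ext_sup]
  refine sup_le ?_ ((ext_mono (im_U1 h)).trans (ext_E1_le h))
  rw [ext_le_iff]
  rintro _ ⟨x, hx, rfl⟩
  exact B_mem h.hL ⟨_, up_mem hx.1, rfl⟩ fun k => ext_E1_le h (up_mem (im_le.1 (im_U1 h) k x hx))

theorem cert (h : DatI B A u v a L X w wJ z zJ) : L.rank + finrank K X = Fintype.card n +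
    finrank F ((ext F X).map L.mulVecLin ⊔
      ext F (imB B A (U1 X u v w)) : Submodule F (m → F)) := by
  rw [sup_eq_left.2 (ext_imB_le h)]
  have e1 := finrank_map_add L.mulVecLin (ext F X)
  rw [inf_eq_left.2 h.ker_le, finrank_ext] at e1
  have e2 := LinearMap.finrank_range_add_finrank_ker L.mulVecLin
  rw [finrank_fintype_fun_eq_card] at e2
  change L.rank + _ = _ at e2
  omega

end dims

end main

end Pool.Agent.W981.Hid
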