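import Pool.Agent.W981.Hid.Dims

/-!
# The blocks at a point where the rank is locally maximal, for an unknown decomposition
-/

set_option autoImplicit false
set_option linter.unusedSectionVars false

namespace Pool.Agent.W981.Hid

open Pool.Agent.W981.Hyp Pool.Agent.W981.Blk Module Matrix
open Pool.Agent.W981.Aff (Alg imB lin_ext)
open Pool.Agent.W981.Loc

section point

variable {σ ι K F : Type*} [Field K] [Field F] [Algebra K F] [DecidableEq σ] [Fintype σ]
  [Fintype ι] {n m : Type*} [Fintype n] [DecidableEq n] [Fintype m] [DecidableEq m]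

theorem map_le_im [Infinite F] {B : Matrix m n K} {A : σ → Matrix m n K}
    {κ : Type*} [Fintype κ] {v₀ : κ → n → K} {L : Matrix m n F} {G : Matrix n m F}
    (hL : ∃ P : σ → F, L = B.map (algebraMap K F) + ∑ k, P k • (A k).map (algebraMap K F))
    (hG : L * G * L = L) (H : AllGood A v₀ L) {X : Submodule K (n → K)}
    (hX : X = hull K (JJ G A L)) :
    (ext F X).map L.mulVecLin ≤ ext F (im A X) := by
  have hle : JJ G A L ≤ ext F X := by
    rw [hX]
    exact le_ext_hull _
  have h2 : X ≤ (im A X).comap B.mulVecLin := by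
    have := hull_le (B_JJ hL hG H hle)
    rwa [← hX] at this
  refine (map_L_le hL X).trans (ext_mono (sup_le ?_ le_rfl))
  rintro _ ⟨x, hx, rfl⟩
  exact h2 hx

/-- the matrices `A_k` map the hull of the kernel to the span of the `u_i` with `v_i · z ≠ 0` -/
theorem im_hull_le_EI {A : σ → Matrix m n K} {u : ι → m → K} {v : ι → n → K} {a : σ → ι → K}
    (hA : ∀ k, A k = ∑ i, a k i • vecMulVec (u i) (v i)) {L : Matrix m n F} {z : n → F}
    (hzv : ∀ i, zt v z i = 0 → ∀ x, L *ᵥ x = 0 → zt v x i = 0) :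
    im A (hull K (LinearMap.ker L.mulVecLin)) ≤ EI u v z := by
  rw [im_le]
  intro k x hx
  rw [sum_mulVec_eq (hA k)]
  refine Submodule.sum_mem _ fun i _ => ?_
  by_cases hi : zt v z i = 0
  · have h1 : v i ⬝ᵥ x = 0 := hx (v i) fun y hy => hzv i hi y hy
    rw [h1, mul_zero, zero_smul]
    exact Submodule.zero_mem _
  · exact Submodule.smul_mem _ _ (Submodule.subset_span ⟨i, rfl, hi⟩)

theorem exists_datI [Infinite F] (B : Matrix m n K) (A : σ → Matrix m n K)
    (u : ι → m → K) (v : ι → n → K) (a : σ → ι → K) (L : Matrix m n F)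
    (hA : ∀ k, A k = ∑ i, a k i • vecMulVec (u i) (v i))
    (hL : ∃ P : σ → F, L = B.map (algebraMap K F) + ∑ k, P k • (A k).map (algebraMap K F))
    {κ : Type*} [Fintype κ] {v₀ : κ → n → K} (H : AllGood A v₀ L)
    (hstab : ∀ G : Matrix n m F, L * G * L = L →
      im A (hull K (JJ G A L)) ≤ im A (hull K (LinearMap.ker L.mulVecLin))) :
    ∃ X w wJ z zJ, DatI B A u v a L X w wJ z zJ := by
  classical
  obtain ⟨G, hG⟩ := exists_ginv L
  obtain ⟨X, hX⟩ : ∃ X, X = hull K (JJ G A L) := ⟨_, rfl⟩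
  have hle : JJ G A L ≤ ext F X := by
    rw [hX]
    exact le_ext_hull _
  obtain ⟨z, hz, hzv⟩ := Module.Dual.exists_forall_mem_ne_zero_of_forall_exists
    (LinearMap.ker L.mulVecLin)
    (fun i : {i // ¬ ∀ x, L *ᵥ x = 0 → up F (v i) ⬝ᵥ x = 0} =>
      (⟨⟨fun y => up F (v i.1) ⬝ᵥ y, fun a b => dotProduct_add _ _ _⟩,
        fun c a => dotProduct_smul _ _ _⟩ : (n → F) →ₗ[F] F)) (by
      rintro ⟨i, hi⟩
      by_contra hcon
      push Not at hcon
      exact hi fun x hx => hcon x hx)
  have hz0 : L *ᵥ z = 0 := hz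
  obtain ⟨w, hw, hwu⟩ := Module.Dual.exists_forall_mem_ne_zero_of_forall_exists
    (perp ((ext F X).map L.mulVecLin))
    (fun i : {i // up F (u i) ∉ (ext F X).map L.mulVecLin} =>
      (⟨⟨fun y => y ⬝ᵥ up F (u i.1), fun a b => add_dotProduct _ _ _⟩,
        fun c a => smul_dotProduct _ _ _⟩ : (m → F) →ₗ[F] F)) (by
      rintro ⟨i, hi⟩
      by_contra hcon
      push Not at hcon
      exact hi (mem_iff_dot.2 fun ψ hψ => hcon ψ hψ))
  have hw' : ∀ y ∈ ext F X, w ⬝ᵥ (L *ᵥ y) = 0 := fun y hy => hw _ ⟨y, hy, rfl⟩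
  -- the first derivative of `w`
  have hi0 : ∀ x, L *ᵥ x = 0 → ∀ k, w ⬝ᵥ (NN F A k *ᵥ x) = 0 := by
    intro x hx k
    have h1 := hw' _ (hle (j1_mem hx k))
    rw [L_j1 H hG hx, dotProduct_neg, neg_eq_zero] at h1
    exact h1
  have hwk : ∀ k, ∃ w' : m → F, ∀ x ∈ ext F X, w' ⬝ᵥ (L *ᵥ x) = -(w ⬝ᵥ (NN F A k *ᵥ x)) := by
    intro k
    refine exists_dual (ext F X) L
      { toFun := fun x => -(w ⬝ᵥ (NN F A k *ᵥ x))
        map_add' := fun x y => by rw [mulVec_add, dotProduct_add, neg_add]
        map_smul' := fun c x => by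
          change -(w ⬝ᵥ (NN F A k *ᵥ (c • x))) = c * -(w ⬝ᵥ (NN F A k *ᵥ x))
          rw [mulVec_smul, dotProduct_smul, smul_eq_mul, mul_neg] } ?_
    intro x _ hx0
    change -(w ⬝ᵥ (NN F A k *ᵥ x)) = 0
    rw [hi0 x hx0 k, neg_zero]
  choose wk hwk using hwk
  have hNB : ∀ k (x : n → F), NN F A k *ᵥ x = BB u v (up F (a k)) x := fun k x =>
    map_mulVec_eq u v (hA k) x
  have hks : ∀ k : σ, kap F a (Pi.single k 1) = up F (a k) := fun k => by
    rw [Loc.kap, Fintype.linearCombination_apply_single, one_smul]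
  have hzs : ∀ k : σ, Fintype.linearCombination F (fun k => j1 G A k z) (Pi.single k 1) =
      j1 G A k z := fun k => by
    rw [Fintype.linearCombination_apply_single, one_smul]
  have hws : ∀ k : σ, Fintype.linearCombination F wk (Pi.single k 1) = wk k := fun k => by
    rw [Fintype.linearCombination_apply_single, one_smul]
  obtain ⟨zJ, hzJ⟩ : ∃ zJ : (σ → F) →ₗ[F] (n → F), zJ =
    Fintype.linearCombination F (fun k => j1 G A k z) := ⟨_, rfl⟩
  obtain ⟨wJ, hwJ⟩ : ∃ wJ : (σ → F) →ₗ[F] (m → F), wJ =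
    Fintype.linearCombination F wk := ⟨_, rfl⟩
  rw [← hzJ] at hzs
  rw [← hwJ] at hws
  have hzv' : ∀ i, zt v z i = 0 → ∀ x, L *ᵥ x = 0 → zt v x i = 0 := by
    intro i hi x hx
    have h1 : ∀ x, L *ᵥ x = 0 → up F (v i) ⬝ᵥ x = 0 := by
      by_contra h0
      exact hzv ⟨i, h0⟩ hi
    exact h1 x hx
  refine ⟨X, w, wJ, z, zJ, hA, hL, ker_le_JJ.trans hle, hz0, hzv', ?_, ?_, ?_, ?_, ?_, ?_, ?_,
    (map_le_im hL hG H hX).trans (ext_mono ?_)⟩
  rotate_right
  · rw [hX]
    exact (hstab G hG).trans (im_hull_le_EI hA hzv')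
  · intro i hi
    by_contra h0
    exact hwu ⟨i, h0⟩ hi
  · intro b
    rw [hzJ, Fintype.linearCombination_apply]
    exact Submodule.sum_mem _ fun k _ => Submodule.smul_mem _ _ (hle (j1_mem hz0 k))
  · intro b
    rw [hzJ, Loc.kap, Fintype.linearCombination_apply, Fintype.linearCombination_apply, mulVec_sum,
      BB_sum_left, ← Finset.sum_neg_distrib]
    refine Finset.sum_congr rfl fun k _ => ?_
    rw [mulVec_smul, L_j1 H hG hz0, BB_smul_left, hNB, smul_neg]
  · intro x hx b
    refine lin_ext (T := fun b => w ⬝ᵥ BB u v (kap F a b) x) ?_ ?_ ?_ b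
    · intro b c
      simp only [map_add, BB_add_left, dotProduct_add]
    · intro c b
      simp only [map_smul, BB_smul_left, dotProduct_smul, smul_eq_mul]
    · intro k
      rw [hks, ← hNB]
      exact hi0 x hx k
  · intro b c
    rw [← sub_eq_zero]
    refine lin_ext (T := fun b => w ⬝ᵥ BB u v (kap F a c) (zJ b) -
      wJ c ⬝ᵥ BB u v (kap F a b) z) ?_ ?_ ?_ b
    · intro b b'
      simp only [map_add, BB_add_left, BB_add_right, dotProduct_add]
      ring
    · intro r b
      simp only [map_smul, BB_smul_left, BB_smul_right, dotProduct_smul, smul_eq_mul]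
      ring
    · intro k
      refine lin_ext (T := fun c => w ⬝ᵥ BB u v (kap F a c) (zJ (Pi.single k 1)) -
        wJ c ⬝ᵥ BB u v (kap F a (Pi.single k 1)) z) ?_ ?_ ?_ c
      · intro c c'
        simp only [map_add, BB_add_left, dotProduct_add, add_dotProduct]
        ring
      · intro r c
        simp only [map_smul, BB_smul_left, dotProduct_smul, smul_dotProduct, smul_eq_mul]
        ring
      · intro j
        rw [hks, hks, hzs, hws, ← hNB, ← hNB]
        have h1 := hwk j _ (hle (j1_mem hz0 k))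
        rw [L_j1 H hG hz0, dotProduct_neg] at h1
        linear_combination h1
  · intro b c
    refine lin_ext (T := fun b => w ⬝ᵥ BB u v (kap F a c) (zJ b) +
      w ⬝ᵥ BB u v (kap F a b) (zJ c)) ?_ ?_ ?_ b
    · intro b b'
      simp only [map_add, BB_add_left, BB_add_right, dotProduct_add]
      ring
    · intro r b
      simp only [map_smul, BB_smul_left, BB_smul_right, dotProduct_smul, smul_eq_mul]
      ring
    · intro k
      refine lin_ext (T := fun c => w ⬝ᵥ BB u v (kap F a c) (zJ (Pi.single k 1)) +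
        w ⬝ᵥ BB u v (kap F a (Pi.single k 1)) (zJ c)) ?_ ?_ ?_ c
      · intro c c'
        simp only [map_add, BB_add_left, BB_add_right, dotProduct_add]
        ring
      · intro r c
        simp only [map_smul, BB_smul_left, BB_smul_right, dotProduct_smul, smul_eq_mul]
        ring
      · intro j
        rw [hks, hks, hzs, hzs, ← hNB, ← hNB]
        have h1 := hw' _ (hle (j2_mem hz0 j k))
        rw [L_j2 H hG hz0, dotProduct_sub, dotProduct_neg] at h1
        linear_combination -h1
  · intro b c d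
    refine lin_ext (T := fun b => s3 u v a wJ zJ b c d) ?_ ?_ ?_ b
    · intro b b'
      simp only [s3, q3, map_add, BB_add_left, BB_add_right, dotProduct_add, add_dotProduct]
      ring
    · intro r b
      simp only [s3, q3, map_smul, BB_smul_left, BB_smul_right, dotProduct_smul,
        smul_dotProduct, smul_eq_mul]
      ring
    intro i
    refine lin_ext (T := fun c => s3 u v a wJ zJ (Pi.single i 1) c d) ?_ ?_ ?_ c
    · intro b b'
      simp only [s3, q3, map_add, BB_add_left, BB_add_right, dotProduct_add, add_dotProduct]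
      ring
    · intro r b
      simp only [s3, q3, map_smul, BB_smul_left, BB_smul_right, dotProduct_smul,
        smul_dotProduct, smul_eq_mul]
      ring
    intro j
    refine lin_ext (T := fun d => s3 u v a wJ zJ (Pi.single i 1) (Pi.single j 1) d) ?_ ?_ ?_ d
    · intro b b'
      simp only [s3, q3, map_add, BB_add_left, BB_add_right, dotProduct_add, add_dotProduct]
      ring
    · intro r b
      simp only [s3, q3, map_smul, BB_smul_left, BB_smul_right, dotProduct_smul,
        smul_dotProduct, smul_eq_mul]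
      ring
    intro k
    simp only [s3, q3, hks, hzs, hws, ← hNB]
    have e : ∀ a b c : σ, w ⬝ᵥ (NN F A c *ᵥ j2 G A a b z) =
        wk c ⬝ᵥ (NN F A b *ᵥ j1 G A a z) + wk c ⬝ᵥ (NN F A a *ᵥ j1 G A b z) := by
      intro a b c
      have h1 := hwk c _ (hle (j2_mem hz0 a b))
      rw [L_j2 H hG hz0, dotProduct_sub, dotProduct_neg] at h1
      linear_combination h1
    have h := hw' _ (hle (j3_mem hz0 i j k))
    rw [L_j3 H hG hz0, dotProduct_sub, dotProduct_sub, dotProduct_neg, e, e, e] at h
    linear_combination -h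

/-- **The block theorem at a point.** -/
theorem local_blocks [CharZero K] [Infinite F] (B : Matrix m n K) (A : σ → Matrix m n K)
    (u : ι → m → K) (v : ι → n → K) (a : σ → ι → K) (L : Matrix m n F)
    (hA : ∀ k, A k = ∑ i, a k i • vecMulVec (u i) (v i))
    (hL : ∃ P : σ → F, L = B.map (algebraMap K F) + ∑ k, P k • (A k).map (algebraMap K F))
    {κ : Type*} [Fintype κ] {v₀ : κ → n → K} (H : AllGood A v₀ L)
    (hstab : ∀ G : Matrix n m F, L * G * L = L →
      im A (hull K (JJ G A L)) ≤ im A (hull K (LinearMap.ker L.mulVecLin)))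
    {c : ℕ} (hc : Fintype.card ι ≤ finrank K (WW a) + c) :
    ∃ U₁ U₂ : Submodule K (n → K), U₁ ≤ U₂ ∧
      finrank K U₂ ≤ finrank K U₁ + 16 * c ∧
      L.rank + finrank K U₂ = Fintype.card n + finrank F ((ext F U₂).map L.mulVecLin ⊔
        ext F (imB B A U₁) : Submodule F (m → F)) := by
  obtain ⟨X, w, wJ, z, zJ, h⟩ := exists_datI B A u v a L hA hL H hstab
  have h2' : (2 : F) ≠ 0 := by
    have : (2 : F) = algebraMap K F 2 := by rw [map_ofNat]
    rw [this, Ne, map_eq_zero]
    exact two_ne_zero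
  exact ⟨U1 X u v w, X, fun _ hx => hx.1, dim_U h h2' hc, cert h⟩

end point

end Pool.Agent.W981.Hid
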