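import Pool.Agent.W981.Hid.Point

/-!
# The rank of the stacked matrix
-/

set_option autoImplicit false
set_option linter.unusedSectionVars false

namespace Pool.Agent.W981.Hid

open Pool.Agent.W981.Hyp Pool.Agent.W981.Blk Module Matrix
open Pool.Agent.W981.Loc (zt om LL)

section stack

variable {F : Type*} [Field F] {n m p : Type*} [Fintype n] [Fintype m] [Fintype p]
  [DecidableEq p]

/-- the matrix `1 ⊗ M` with the row of matrices `C` below -/
def st {R : Type*} [Zero R] (C : p → Matrix m n R) (M : Matrix m n R) :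
    Matrix ((p × m) ⊕ m) (p × n) R :=
  Matrix.of fun r c => Sum.elim (fun x => if x.1 = c.1 then M x.2 c.2 else 0)
    (fun i => C c.1 i c.2) r

theorem st_inl (C : p → Matrix m n F) (M : Matrix m n F) (x : p × n → F) (q : p) (i : m) :
    (st C M *ᵥ x) (Sum.inl (q, i)) = (M *ᵥ fun j => x (q, j)) i := by
  simp only [mulVec, dotProduct, st, Matrix.of_apply, Sum.elim_inl, Fintype.sum_prod_type,
    ite_mul, zero_mul]
  rw [Finset.sum_comm]
  simp

theorem st_inr (C : p → Matrix m n F) (M : Matrix m n F) (x : p × n → F) (i : m) :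
    (st C M *ᵥ x) (Sum.inr i) = (∑ q, C q *ᵥ fun j => x (q, j)) i := by
  simp only [mulVec, dotProduct, st, Matrix.of_apply, Sum.elim_inr, Fintype.sum_prod_type,
    Finset.sum_apply]

theorem st_ker (C : p → Matrix m n F) (M : Matrix m n F) (x : p × n → F) :
    st C M *ᵥ x = 0 ↔ (∀ q, M *ᵥ (fun j => x (q, j)) = 0) ∧
      ∑ q, C q *ᵥ (fun j => x (q, j)) = 0 := by
  constructor
  · intro h
    refine ⟨fun q => funext fun i => ?_, funext fun i => ?_⟩
    · rw [← st_inl C M, h]
      rfl
    · rw [← st_inr C M, h]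
      rfl
  · rintro ⟨h1, h2⟩
    funext r
    rcases r with ⟨q, i⟩ | i
    · rw [st_inl, h1]
      rfl
    · rw [st_inr, h2]
      rfl

/-- the sum of the images -/
noncomputable def Th (C : p → Matrix m n F) (M : Matrix m n F) :
    (p → LinearMap.ker M.mulVecLin) →ₗ[F] (m → F) :=
  ∑ q, (C q).mulVecLin ∘ₗ (LinearMap.ker M.mulVecLin).subtype ∘ₗ LinearMap.proj q

theorem Th_apply (C : p → Matrix m n F) (M : Matrix m n F)
    (x : p → LinearMap.ker M.mulVecLin) : Th C M x = ∑ q, C q *ᵥ (x q : n → F) := by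
  rw [Th, LinearMap.sum_apply]
  rfl

theorem range_Th (C : p → Matrix m n F) (M : Matrix m n F) :
    LinearMap.range (Th C M) = im C (LinearMap.ker M.mulVecLin) := by
  refine le_antisymm ?_ ?_
  · rintro _ ⟨x, rfl⟩
    rw [Th_apply]
    exact Submodule.sum_mem _ fun q _ => mem_im (x q).2 q
  · rw [im_le]
    intro q x hx
    refine ⟨Pi.single q ⟨x, hx⟩, ?_⟩
    rw [Th_apply, Finset.sum_eq_single q]
    · rw [Pi.single_eq_same]
    · intro r _ hr
      rw [Pi.single_eq_of_ne hr]
      exact Matrix.mulVec_zero _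
    · intro h
      exact absurd (Finset.mem_univ _) h

/-- the vector with the given parts -/
def Ps (M : Matrix m n F) : (p → LinearMap.ker M.mulVecLin) →ₗ[F] (p × n → F) where
  toFun x := fun c => (x c.1 : n → F) c.2
  map_add' _ _ := rfl
  map_smul' _ _ := rfl

theorem Ps_inj (M : Matrix m n F) : Function.Injective (Ps (p := p) M) := by
  intro x y h
  funext q
  refine Subtype.ext (funext fun j => ?_)
  exact congrFun h (q, j)

theorem map_Ps (C : p → Matrix m n F) (M : Matrix m n F) :
    (LinearMap.ker (Th C M)).map (Ps M) = LinearMap.ker (st C M).mulVecLin := by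
  ext x
  constructor
  · rintro ⟨y, hy, rfl⟩
    refine (st_ker C M _).2 ⟨fun q => (y q).2, ?_⟩
    have h1 : Th C M y = 0 := hy
    rwa [Th_apply] at h1
  · intro hx
    obtain ⟨h1, h2⟩ := (st_ker C M x).1 hx
    refine ⟨fun q => ⟨fun j => x (q, j), h1 q⟩, ?_, rfl⟩
    change Th C M _ = 0
    rw [Th_apply]
    exact h2

/-- **The rank of the stacked matrix.** -/
theorem rank_st (C : p → Matrix m n F) (M : Matrix m n F) : (st C M).rank =
    Fintype.card p * M.rank + finrank F (im C (LinearMap.ker M.mulVecLin)) := by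
  have e1 := Loc.rank_add_ker (st C M)
  have e2 := Loc.rank_add_ker M
  have e3 := LinearMap.finrank_range_add_finrank_ker (Th C M)
  rw [range_Th, finrank_pi_fintype, Finset.sum_const, Finset.card_univ, smul_eq_mul] at e3
  have e4 : finrank F (LinearMap.ker (st C M).mulVecLin) = finrank F (LinearMap.ker (Th C M)) := by
    rw [← map_Ps]
    exact (Submodule.equivMapOfInjective (Ps M) (Ps_inj M) _).finrank_eq.symm
  rw [e4, Fintype.card_prod] at e1
  have e5 : Fintype.card p * M.rank + Fintype.card p *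
      finrank F (LinearMap.ker M.mulVecLin) = Fintype.card p * Fintype.card n := by
    rw [← Nat.mul_add, e2]
  omega

end stack

section fam

variable {σ K F : Type*} [Field K] [Field F] [Algebra K F] [Fintype σ] {n m p : Type*} [Fintype n]
  [Fintype m] [Fintype p] [DecidableEq p]

theorem LL_st (B : Matrix m n K) (A : σ → Matrix m n K)
    (C : p → Matrix m n K) (P : σ → F) :
    LL F (st C B) (fun k => st 0 (A k)) P =
      st (fun q => (C q).map (algebraMap K F)) (LL F B A P) := by
  ext r c
  rcases r with ⟨q, i⟩ | i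
  · by_cases h : q = c.1
    · simp [LL, st, Matrix.sum_apply, h]
    · simp [LL, st, Matrix.sum_apply, h]
  · simp [LL, st, Matrix.sum_apply]

end fam

section upper

variable {σ ι K F : Type*} [Field K] [Field F] [Algebra K F] [DecidableEq σ] [Fintype σ]
  [Fintype ι] {n m : Type*} [Fintype n] [DecidableEq n] [Fintype m] [DecidableEq m]

/-- the image of the hull of the kernel is not much larger than the image of the kernel -/
theorem dim_im_hull [Infinite F] {A : σ → Matrix m n K} {u : ι → m → K} {v : ι → n → K}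
    {a : σ → ι → K} (hA : ∀ k, A k = ∑ i, a k i • vecMulVec (u i) (v i)) (L : Matrix m n F)
    {c : ℕ} (hc : Fintype.card ι ≤ finrank K (WW a) + c) :
    finrank K (im A (hull K (LinearMap.ker L.mulVecLin))) ≤
      finrank F (im (fun k => (A k).map (algebraMap K F)) (LinearMap.ker L.mulVecLin)) + c := by
  classical
  obtain ⟨z, hz, hzv⟩ := Module.Dual.exists_forall_mem_ne_zero_of_forall_exists
    (LinearMap.ker L.mulVecLin)
    (fun i : {i // ¬ ∀ x, L *ᵥ x = 0 → up F (v i) ⬝ᵥ x = 0} =>
      (⟨⟨fun y => up F (v i.1) ⬝ᵥ y, fun a b => dotProduct_add _ _ _⟩,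
        fun c a => dotProduct_smul _ _ _⟩ : (n → F) →ₗ[F] F)) (by
      rintro ⟨i, hi⟩
      by_contra hcon
      push Not at hcon
      exact hi fun x hx => hcon x hx)
  have hzv' : ∀ i, zt v z i = 0 → ∀ x, L *ᵥ x = 0 → zt v x i = 0 := by
    intro i hi x hx
    have h1 : ∀ x, L *ᵥ x = 0 → up F (v i) ⬝ᵥ x = 0 := by
      by_contra h0
      exact hzv ⟨i, h0⟩ hi
    exact h1 x hx
  have h1 := Submodule.finrank_mono (im_hull_le_EI hA hzv')
  have h2 := Submodule.finrank_mono (ext_EI_le (F := F) (u := u) (v := v) (z := z))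
  rw [finrank_ext] at h2
  have h3 : (⊤ : Submodule F ({i // zt v z i ≠ 0} → F)).map (BI u v z) ≤
      (⊤ : Submodule F (ι → F)).map (BBl u v z) := by
    rintro _ ⟨y, -, rfl⟩
    obtain ⟨y', hy'⟩ : ∃ y' : ι → F, res F (fun i => zt v z i ≠ 0) y' = y :=
      ⟨fun i => if h : zt v z i ≠ 0 then y ⟨i, h⟩ else 0, by
        funext i
        rw [res_apply, dif_pos i.2]⟩
    refine ⟨y', Submodule.mem_top, ?_⟩
    rw [← hy', BI_res]
    rfl
  have h4 := Submodule.finrank_mono h3
  have h5 := finrank_map_codim (BBl u v z) (S₁ := LinearMap.range (Loc.kap F a)) (S := ⊤) le_top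
  rw [finrank_top, finrank_fintype_fun_eq_card] at h5
  have h6 := Submodule.finrank_mono (Loc.ext_le_range (F := F) a)
  rw [finrank_ext] at h6
  have h7 : (LinearMap.range (Loc.kap F a)).map (BBl u v z) ≤
      im (fun k => (A k).map (algebraMap K F)) (LinearMap.ker L.mulVecLin) := by
    rintro _ ⟨_, ⟨b, rfl⟩, rfl⟩
    change BB u v (Loc.kap F a b) z ∈ _
    rw [Loc.kap, Fintype.linearCombination_apply, BB_sum_left]
    refine Submodule.sum_mem _ fun k _ => ?_
    rw [BB_smul_left, ← map_mulVec_eq u v (hA k)]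
    exact Submodule.smul_mem _ _ (mem_im (A := fun k => (A k).map (algebraMap K F)) hz k)
  have h8 := Submodule.finrank_mono h7
  omega

end upper

end Pool.Agent.W981.Hid
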